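import Mathlib

set_option autoImplicit false

/-! # Linear feasibility: estimates -/

namespace Pool.Agent.X282.LP

theorem arith_m (m K s : ℕ) (hm : 200 ≤ m) (hK : K ≤ m ^ 2) (hs : s < m ^ 2) :
    4 * K * (5 * s + 1) + 2 + s ≤ m ^ 5 := by
  have h2 : 4 * K * (5 * s + 1) ≤ 4 * m ^ 2 * (5 * m ^ 2) :=
    Nat.mul_le_mul (Nat.mul_le_mul_left _ hK) (by omega)
  have h3 : 4 * m ^ 2 * (5 * m ^ 2) = 20 * m ^ 4 := by ring
  have h4 : m ^ 2 ≤ m ^ 4 := Nat.pow_le_pow_right (by omega) (by norm_num)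
  have h5 : 100 * m ^ 4 ≤ m ^ 5 := by
    calc 100 * m ^ 4 ≤ m * m ^ 4 := Nat.mul_le_mul_right _ (by omega)
      _ = m ^ 5 := by ring
  have h6 : 1 ≤ m ^ 4 := Nat.one_le_pow _ _ (by omega)
  rw [h3] at h2
  generalize m ^ 5 = a at *
  generalize m ^ 4 = b at *
  generalize m ^ 2 = d at *
  generalize 4 * K * (5 * s + 1) = e at *
  omega

theorem one_le_log (m : ℕ) (hm : 200 ≤ m) : 1 ≤ Real.logb 2 (m : ℝ) := by
  have hm' : (200 : ℝ) ≤ m := by exact_mod_cast hm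
  rw [Real.le_logb_iff_rpow_le (by norm_num) (by positivity), Real.rpow_one]
  linarith

theorem arith_l (m c w : ℕ) (hm : 200 ≤ m) (hc : 1 ≤ c) (hw : 1 ≤ w) :
    1 + 5 * Real.logb 2 ((m ^ 5 : ℕ) : ℝ) +
      ((w : ℝ) - 1) * Real.logb 2 ((m ^ c : ℕ) : ℝ) ≤ 26 * c * w * Real.logb 2 (m : ℝ) := by
  have hw' : (1 : ℝ) ≤ w := by exact_mod_cast hw
  have hc' : (1 : ℝ) ≤ c := by exact_mod_cast hc
  have hl1 := one_le_log m hm
  rw [Nat.cast_pow m 5, Nat.cast_pow m c, Real.logb_pow, Real.logb_pow]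
  generalize Real.logb 2 (m : ℝ) = l at *
  push_cast
  have h4 : 1 + 5 * (5 * l) ≤ 26 * l := by linarith
  have h5 : 0 ≤ ((w : ℝ) - 1) * (c * l) := by
    apply mul_nonneg (by linarith)
    positivity
  have h6 : l ≤ c * l := by nlinarith
  nlinarith

theorem arith_s (m n c w s : ℕ) (hm : 200 ≤ m) (hn : n ≤ m) (hc : 1 ≤ c) (hw : 1 ≤ w)
    (hs : m ^ 2 ≤ s) :
    (m : ℝ) ^ 3 * n ≤ 60000000 * c * w ^ 3 * Real.logb 2 m * s ^ 2 := by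
  have hw' : (1 : ℝ) ≤ w := by exact_mod_cast hw
  have hc' : (1 : ℝ) ≤ c := by exact_mod_cast hc
  have hn' : (n : ℝ) ≤ m := by exact_mod_cast hn
  have hl1 := one_le_log m hm
  have h1 : (m : ℝ) ^ 2 ≤ s := by exact_mod_cast hs
  have h2 : (m : ℝ) ^ 3 * (n : ℝ) ≤ (s : ℝ) ^ 2 := by
    calc (m : ℝ) ^ 3 * (n : ℝ) ≤ (m : ℝ) ^ 3 * m :=
          mul_le_mul_of_nonneg_left hn' (by positivity)
      _ = ((m : ℝ) ^ 2) ^ 2 := by ring
      _ ≤ (s : ℝ) ^ 2 := pow_le_pow_left₀ (by positivity) h1 2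
  generalize Real.logb 2 (m : ℝ) = l at *
  have h3 : (1 : ℝ) ≤ w ^ 3 := one_le_pow₀ hw'
  have h4 : (1 : ℝ) ≤ 60000000 * c * w ^ 3 := by nlinarith
  have h4' : (1 : ℝ) ≤ 60000000 * c * w ^ 3 * l := by nlinarith
  have h5 : 0 ≤ (s : ℝ) ^ 2 := by positivity
  nlinarith

theorem arith_K (m n N k : ℕ) (hn : n = k + 2) (hm : m = N + k + 1) (h3 : 3 ≤ n)
    (h2 : 2 * n ≤ m) : m * n ≤ 6 * (N * k) ∧ N * k ≤ m ^ 2 := by
  constructor
  · have h4 : m ≤ 2 * N := by omega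
    have h5 : n ≤ 3 * k := by omega
    calc m * n ≤ (2 * N) * (3 * k) := Nat.mul_le_mul h4 h5
      _ = 6 * (N * k) := by ring
  · rw [pow_two]
    exact Nat.mul_le_mul (by omega) (by omega)

theorem arith_f (m n c w s K : ℕ) (hm : 200 ≤ m) (hK : m * n ≤ 6 * K)
    (h : (m : ℝ) ^ 2 * (K : ℝ) ≤ 360000 * (w : ℝ) ^ 2 * (26 * c * w * Real.logb 2 (m : ℝ)) * s ^ 2) :
    (m : ℝ) ^ 3 * n ≤ 60000000 * c * w ^ 3 * Real.logb 2 m * s ^ 2 := by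
  have hl1 := one_le_log m hm
  generalize Real.logb 2 (m : ℝ) = l at *
  have e1 : 360000 * (w : ℝ) ^ 2 * (26 * c * w * l) * s ^ 2 = 9360000 * (c * w ^ 3 * l * s ^ 2) := by
    ring
  rw [e1] at h
  have h8 : 0 ≤ (c : ℝ) * w ^ 3 * l * s ^ 2 := by positivity
  have h9 : (m : ℝ) * (n : ℝ) ≤ 6 * (K : ℝ) := by exact_mod_cast hK
  have h10 : (m : ℝ) ^ 3 * (n : ℝ) ≤ 6 * ((m : ℝ) ^ 2 * (K : ℝ)) := by
    have h11 := mul_le_mul_of_nonneg_left h9 (sq_nonneg (m : ℝ))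
    linarith
  have e2 : 60000000 * (c : ℝ) * w ^ 3 * l * s ^ 2 = 60000000 * (c * w ^ 3 * l * s ^ 2) := by ring
  rw [e2]
  linarith

end Pool.Agent.X282.LP
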