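import Pool.Agent.X282.LP.Defs
import Pool.Agent.Y638.RF.Lower
import Pool.Agent.TH457.Ary.Core

set_option autoImplicit false

/-! # Linear feasibility: every inequality can ask for `N k` bits which are stored in the others

The variables are `x = v 0`, `y = v 1` and `q_j = v (j + 2)`, `j < k`. The stored inequalities are
`y ≤ - 2 t x + t ^ 2 + ∑ j, z (t, j) q_j` for `t < N` and `q_j ≥ 0`. The inequality
`y ≥ - 2 t x + t ^ 2 + 1 + ∑ j' ≠ j, q_j'` asks for the bit `z (t, j)`. -/

namespace Pool.Agent.X282.LP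

open Finset

variable {N k : ℕ}

/-- the stored inequalities -/
noncomputable def store (z : Fin N × Fin k → Bool) (r : Fin (N + k + 1)) : Row (k + 2) :=
  if h : r.val < N then
    (Fin.cons (-(2 * (r.val : ℝ))) (Fin.cons (-1) fun j => if z (⟨r.val, h⟩, j) = true then 1 else 0),
      -((r.val : ℝ) ^ 2))
  else if r.val < N + k then
    (Fin.cons 0 (Fin.cons 0 fun j => if N + j.val = r.val then 1 else 0), 0)
  else (fun _ => 0, 0)

/-- the question -/
noncomputable def query (p : Fin N × Fin k) : Row (k + 2) :=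
  (Fin.cons (2 * ((p.1 : ℕ) : ℝ)) (Fin.cons 1 fun j => if j = p.2 then 0 else -1),
    (((p.1 : ℕ) : ℝ)) ^ 2 + 1)

theorem sum_cons (a b : ℝ) (c : Fin k → ℝ) (v : Fin (k + 2) → ℝ) :
    ∑ j, (Fin.cons a (Fin.cons b c) : Fin (k + 2) → ℝ) j * v j =
      a * v 0 + (b * v 1 + ∑ j, c j * v j.succ.succ) := by
  rw [Fin.sum_univ_succ, Fin.sum_univ_succ]
  simp

/-- the system -/
noncomputable def sys (z : Fin N × Fin k → Bool) (p : Fin N × Fin k) (r : Fin (N + k + 1)) :
    Row (k + 2) := if r = Fin.last _ then query p else store z r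

theorem sol_iff (z : Fin N × Fin k → Bool) (p : Fin N × Fin k) :
    (∃ v : Fin (k + 2) → ℝ, ∀ r, (sys z p r).2 ≤ ∑ j, (sys z p r).1 j * v j) ↔ z p = true := by
  obtain ⟨t, j⟩ := p
  have ht := t.2
  constructor
  · rintro ⟨v, hv⟩
    have hq : ((t : ℕ) : ℝ) ^ 2 + 1 ≤ 2 * ((t : ℕ) : ℝ) * v 0 + (1 * v 1 +
        ∑ i, (if i = j then (0 : ℝ) else -1) * v i.succ.succ) := by
      have h := hv (Fin.last _)
      unfold sys at h
      rw [if_pos rfl] at h
      unfold query at h
      simp only [sum_cons] at h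
      exact h
    have hs : -(((t : ℕ) : ℝ) ^ 2) ≤ -(2 * ((t : ℕ) : ℝ)) * v 0 + (-1 * v 1 +
        ∑ i, (if z (t, i) = true then (1 : ℝ) else 0) * v i.succ.succ) := by
      have h := hv ⟨t.val, by omega⟩
      unfold sys at h
      rw [if_neg (by
        intro h1
        have := congrArg Fin.val h1
        simp only [Fin.val_last] at this
        omega)] at h
      unfold store at h
      simp only [ht, dif_pos, sum_cons] at h
      exact h
    have hnn : ∀ i : Fin k, 0 ≤ v i.succ.succ := by
      intro i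
      have hi := i.2
      have h := hv ⟨N + i.val, by omega⟩
      unfold sys at h
      rw [if_neg (by
        intro h1
        have := congrArg Fin.val h1
        simp only [Fin.val_last] at this
        omega)] at h
      unfold store at h
      rw [dif_neg (by simp), if_pos (by simp only; omega)] at h
      simp only [sum_cons, zero_mul, zero_add, Nat.add_left_cancel_iff] at h
      rw [sum_eq_single i] at h
      · simpa using h
      · intro b _ hb
        rw [if_neg (fun h => hb (Fin.ext h)), zero_mul]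
      · intro h
        exact absurd (mem_univ _) h
    by_contra hz
    have hle : ∑ i, ((if i = j then (0 : ℝ) else -1) * v i.succ.succ +
        (if z (t, i) = true then (1 : ℝ) else 0) * v i.succ.succ) ≤ 0 := by
      apply sum_nonpos
      intro i _
      have hi := hnn i
      by_cases hij : i = j
      · subst hij
        rw [if_pos rfl, if_neg hz]
        linarith
      · rw [if_neg hij]
        split_ifs <;> linarith
    rw [sum_add_distrib] at hle
    linarith
  · intro hz
    refine ⟨Fin.cons (((t : ℕ) : ℝ)) (Fin.cons (-(((t : ℕ) : ℝ)) ^ 2 + 1)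
      fun i => if i = j then 1 else 0), fun r => ?_⟩
    unfold sys
    split_ifs with hr
    · unfold query
      simp only [sum_cons, Fin.cons_zero, Fin.cons_one, Fin.cons_succ]
      rw [sum_eq_zero (fun i _ => by split_ifs <;> simp)]
      linarith [sq_nonneg ((t : ℕ) : ℝ)]
    · unfold store
      split_ifs with h1 h2
      · simp only [sum_cons, Fin.cons_zero, Fin.cons_one, Fin.cons_succ]
        rw [sum_eq_single j (fun i _ hi => by rw [if_neg hi, mul_zero])
          (fun h => absurd (mem_univ _) h), if_pos rfl, mul_one]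
        by_cases hrt : r.val = t.val
        · have e : (⟨r.val, h1⟩ : Fin N) = t := Fin.ext hrt
          rw [e, if_pos hz, hrt]
          nlinarith
        · have h3 : (1 : ℝ) ≤ (((r.val : ℕ) : ℝ) - ((t : ℕ) : ℝ)) ^ 2 := by
            have h4 : (1 : ℤ) ≤ (((r.val : ℕ) : ℤ) - ((t.val : ℕ) : ℤ)) ^ 2 := by
              have h5 : (((r.val : ℕ) : ℤ) - ((t.val : ℕ) : ℤ)) ≠ 0 := by omega
              have := sq_pos_of_ne_zero h5
              omega
            exact_mod_cast h4
          have h4 : (0 : ℝ) ≤ if z (⟨r.val, h1⟩, j) = true then (1 : ℝ) else 0 := by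
            split_ifs <;> norm_num
          nlinarith
      · simp only [sum_cons, Fin.cons_succ, zero_mul, zero_add]
        apply sum_nonneg
        intro i _
        split_ifs <;> norm_num
      · simp

theorem small_sys (z : Fin N × Fin k → Bool) (p : Fin N × Fin k) :
    Small (N ^ 2) (sys z p) := by
  obtain ⟨t, j⟩ := p
  have ht := t.2
  have hN : 1 ≤ N := by omega
  have hN2 : (1 : ℤ) ≤ ((N ^ 2 : ℕ) : ℤ) := by
    have : 1 ≤ N ^ 2 := Nat.one_le_pow _ _ hN
    exact_mod_cast this
  have hNn : ((N ^ 2 : ℕ) : ℤ) = (N : ℤ) ^ 2 := by push_cast; rfl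
  have b1 : ∀ a : ℕ, a < N → 2 * (a : ℤ) ≤ ((N ^ 2 : ℕ) : ℤ) ∧
      (a : ℤ) ^ 2 + 1 ≤ ((N ^ 2 : ℕ) : ℤ) := by
    intro a ha
    rw [hNn]
    have h1 : (a : ℤ) + 1 ≤ N := by exact_mod_cast ha
    have h0 : (0 : ℤ) ≤ a := by positivity
    constructor <;> nlinarith
  have cs : ∀ (a b : ℝ) (c : Fin k → ℝ), (∃ d : ℤ, |d| ≤ ((N ^ 2 : ℕ) : ℤ) ∧ a = d) →
      (∃ d : ℤ, |d| ≤ ((N ^ 2 : ℕ) : ℤ) ∧ b = d) →
      (∀ i, ∃ d : ℤ, |d| ≤ ((N ^ 2 : ℕ) : ℤ) ∧ c i = d) →
      ∀ i, ∃ d : ℤ, |d| ≤ ((N ^ 2 : ℕ) : ℤ) ∧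
        (Fin.cons a (Fin.cons b c) : Fin (k + 2) → ℝ) i = d := by
    intro a b c ha hb hc i
    refine Fin.cases ?_ (fun i => ?_) i
    · simpa using ha
    · refine Fin.cases ?_ (fun i => ?_) i
      · simpa using hb
      · simpa using hc i
  have z0 : ∃ d : ℤ, |d| ≤ ((N ^ 2 : ℕ) : ℤ) ∧ (0 : ℝ) = d := ⟨0, by simp, by simp⟩
  have z1 : ∃ d : ℤ, |d| ≤ ((N ^ 2 : ℕ) : ℤ) ∧ (1 : ℝ) = d := ⟨1, by simpa using hN2, by simp⟩
  have z2 : ∃ d : ℤ, |d| ≤ ((N ^ 2 : ℕ) : ℤ) ∧ (-1 : ℝ) = d := ⟨-1, by simpa using hN2, by simp⟩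
  intro r
  unfold sys
  split_ifs with hr
  · unfold query
    obtain ⟨h1, h2⟩ := b1 t.val ht
    refine ⟨⟨(t.val : ℤ) ^ 2 + 1, ?_, by push_cast; rfl⟩, cs _ _ _ ⟨2 * (t.val : ℤ), ?_,
      by push_cast; rfl⟩ z1 (fun i => ?_)⟩
    · rw [abs_of_nonneg (by positivity)]
      exact h2
    · rw [abs_of_nonneg (by positivity)]
      exact h1
    · split_ifs
      · exact z0
      · exact z2
  · unfold store
    split_ifs with h3 h4
    · obtain ⟨h1, h2⟩ := b1 r.val h3
      refine ⟨⟨-((r.val : ℤ) ^ 2), ?_, by push_cast; rfl⟩, cs _ _ _ ⟨-(2 * (r.val : ℤ)), ?_,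
        by push_cast; rfl⟩ z2 (fun i => ?_)⟩
      · rw [abs_neg, abs_of_nonneg (by positivity)]
        linarith
      · rw [abs_neg, abs_of_nonneg (by positivity)]
        exact h1
      · split_ifs
        · exact z1
        · exact z0
    · refine ⟨z0, cs _ _ _ z0 z0 (fun i => ?_)⟩
      split_ifs
      · exact z1
      · exact z0
    · exact ⟨z0, fun _ => z0⟩

/-- the stored inequalities, in the order in which inequality `i` is free -/
noncomputable def base (i : Fin (N + k + 1)) (z : Fin N × Fin k → Bool) :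
    Fin (N + k + 1) → Row (k + 2) := fun r => store z (Equiv.swap i (Fin.last _) r)

theorem update_base (i : Fin (N + k + 1)) (z : Fin N × Fin k → Bool) (p : Fin N × Fin k) :
    Function.update (base i z) i (query p) = fun r => sys z p (Equiv.swap i (Fin.last _) r) := by
  funext r
  unfold sys base
  by_cases hr : r = i
  · subst hr
    rw [Function.update_self, Equiv.swap_apply_left, if_pos rfl]
  · rw [Function.update_of_ne hr, if_neg]
    intro h
    apply hr
    have h1 : Equiv.swap i (Fin.last _) i = Fin.last _ := Equiv.swap_apply_left _ _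
    exact (Equiv.swap i _).injective (h.trans h1.symm)

theorem feasible_update (i : Fin (N + k + 1)) (z : Fin N × Fin k → Bool) (p : Fin N × Fin k) :
    feasible (Function.update (base i z) i (query p)) = z p := by
  classical
  rw [update_base]
  unfold feasible
  rw [Bool.eq_iff_iff, decide_eq_true_iff, ← sol_iff z p]
  refine exists_congr fun v => ?_
  exact (Equiv.swap i (Fin.last _)).forall_congr_left.trans (by simp)

theorem small_update (i : Fin (N + k + 1)) (z : Fin N × Fin k → Bool) (p : Fin N × Fin k) :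
    Small (N ^ 2) (Function.update (base i z) i (query p)) := by
  rw [update_base]
  exact fun r => small_sys z p _

theorem asks (i : Fin (N + k + 1)) :
    Pool.Agent.Y638.RF.Asks (D := fun _ : Fin (N + k + 1) => Row (k + 2)) (Fin N × Fin k)
      (N * k) 0 (Small (N ^ 2)) feasible i := by
  classical
  refine Pool.Agent.Y638.RF.asks_of
    ((univ : Finset (Fin N × Fin k)).image query)
    (fun _ => 0) (fun t _ => query t) (base i) ?_ ?_
    (fun _ _ _ _ => rfl) (fun t z => small_update i z t) ?_
  · refine card_image_le.trans ?_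
    rw [card_univ, Fintype.card_prod, Fintype.card_fin, Fintype.card_fin]
  · exact fun t z => mem_image_of_mem _ (mem_univ _)
  · rw [zero_mul, zero_mul]
    apply le_of_eq
    apply sum_eq_zero
    intro z _
    rw [Nat.cast_eq_zero, card_eq_zero, filter_eq_empty_iff]
    intro t _
    rw [not_not]
    exact feasible_update i z t

theorem queries (i : Fin (N + k + 1)) :
    Pool.Agent.TH457.Ary.Queries (D := fun _ : Fin (N + k + 1) => Row (k + 2)) (Fin N × Fin k) id
      (Small (N ^ 2)) feasible i :=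
  Pool.Agent.TH457.Ary.queries_of_update (Small (N ^ 2)) feasible i (fun _ => 0)
    (fun t _ => query t) (base i) (fun _ _ _ _ => rfl) (fun t z => small_update i z t)
    (fun t z => feasible_update i z t)

end Pool.Agent.X282.LP
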