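import Mathlib

set_option autoImplicit false

/-! # Systems of linear inequalities -/

namespace Pool.Agent.X282.LP

/-- A linear inequality `∑ j, a j * x j ≥ b` in `n` real variables, given by `(a, b)`. -/
abbrev Row (n : ℕ) : Type := (Fin n → ℝ) × ℝ

open Classical in
/-- Does the system of the inequalities `S i` have a real solution? -/
noncomputable def feasible {M n : ℕ} (S : Fin M → Row n) : Bool :=
  decide (∃ x : Fin n → ℝ, ∀ i, (S i).2 ≤ ∑ j, (S i).1 j * x j)

/-- All coefficients and all right-hand sides are integers of absolute value at most `X`. -/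
def Small (X : ℕ) {M n : ℕ} (S : Fin M → Row n) : Prop :=
  ∀ i, (∃ c : ℤ, |c| ≤ X ∧ (S i).2 = c) ∧ ∀ j, ∃ c : ℤ, |c| ≤ X ∧ (S i).1 j = c

end Pool.Agent.X282.LP
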